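import Pool.Agent.Helper63.RF.Total
import Pool.Agent.Helper20.SW.Mixed
import Pool.Agent.Helper20.SW.Num

/-!
# MP_47cd0b, rank four, dense case (b)
-/

set_option autoImplicit false
set_option linter.unusedSectionVars false

namespace Pool.Agent.Helper63.RF

open Finset Classical H20SW

variable {Y U E G P R : Type} [Fintype Y] [Fintype U] [Fintype E]

theorem pos_none (C : Cone Y U E G P R) {p : ℕ} {Q1 : Finset Y} {J : Finset E} {a b : E → Y}
    {v : U × E × Option (Y × Y)} (hv : 0 < wA C p Q1 J a b v) (h : v.2.2 = none) :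
    C.ok v.1 v.2.1 ∧ Us C p Q1 v.2.1 := by
  by_contra hc
  have h1 : wF C p Q1 v = 0 := by
    unfold wF
    rw [if_neg (fun h' => hc h'.2)]
  have h2 : wT C J a b v = 0 := by
    unfold wT
    rw [if_neg]
    rintro ⟨h', -⟩
    rw [h] at h'
    exact absurd h' (by simp)
  have h3 : wX C p Q1 J v = 0 := by
    unfold wX
    rw [if_neg]
    rintro ⟨⟨q, -, h'⟩, -⟩
    rw [h] at h'
    exact absurd h' (by simp)
  unfold wA at hv
  linarith

theorem pos_some (C : Cone Y U E G P R) {p : ℕ} {Q1 : Finset Y} {J : Finset E} {a b : E → Y}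
    {v : U × E × Option (Y × Y)} (hv : 0 < wA C p Q1 J a b v) {q : Y × Y} (h : v.2.2 = some q) :
    (C.ok v.1 v.2.1 ∧ v.2.1 ∈ J ∧ q = (a v.2.1, b v.2.1)) ∨
    (C.ok v.1 v.2.1 ∧ q ∈ od C Q1 v.2.1 ∧ p ≤ C.tl v.2.1 ∧ ¬ Us C p Q1 v.2.1) := by
  by_contra hc
  rw [not_or] at hc
  have h1 : wF C p Q1 v = 0 := by
    unfold wF
    rw [if_neg]
    rintro ⟨h', -⟩
    rw [h] at h'
    exact absurd h' (by simp)
  have h2 : wT C J a b v = 0 := by
    unfold wT
    rw [if_neg]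
    rintro ⟨h', h2, h3⟩
    rw [h] at h'
    exact hc.1 ⟨h3, h2, Option.some.inj h'⟩
  have h3 : wX C p Q1 J v = 0 := by
    unfold wX
    rw [if_neg]
    rintro ⟨⟨q', h2, h'⟩, -, h3, h4, h5⟩
    rw [h] at h'
    rw [← Option.some.inj h'] at h2
    exact hc.2 ⟨h3, h2, h4, h5⟩
  unfold wA at hv
  linarith

/-- the choice of vertices: the input of `good_of_mixed` -/
theorem mixed_of_totals (C : Cone Y U E G P R) {p D : ℕ} {Q1 : Finset Y} {J : Finset E}
    {a b : E → Y} (hJ : C.Fam p D J a b) (hQa : ∀ l ∈ J, a l ∈ Q1) (hQb : ∀ l ∈ J, b l ∈ Q1)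
    (hp : 4 ≤ p) (hN : 2 * C.s ≤ Fintype.card Y)
    (hN8 : 8 ≤ Fintype.card Y) (hD : 4 * C.s * D ≤ Fintype.card Y)
    (hsp : 64 * C.s ≤ p * (p - 1))
    (htot : ∀ z, 1 ≤ ∑ u ∈ univ.filter (fun u : U × E × Option (Y × Y) => u.1 = z),
      wA C p Q1 J a b u) :
    ∃ (UF : Finset U) (l : U → E) (x y : U → Y),
      (∀ z ∈ UF, C.ok z (l z) ∧ C.Usable p Q1 (l z)) ∧
      (∀ z ∈ UF, ∀ w ∈ UF, z ≠ w → C.pl z (l z) ≠ C.pl w (l w)) ∧
      (∀ z, z ∉ UF → C.ok z (l z) ∧ C.on (x z) (l z) ∧ C.on (y z) (l z) ∧ x z ≠ y z ∧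
        x z ∈ Q1 ∧ y z ∈ Q1 ∧ ¬ C.Usable p Q1 (l z)) ∧
      (∀ z w, z ∉ UF → w ∉ UF → z ≠ w → C.pl z (l z) ≠ C.pl w (l w) ∧
        C.ln z (x z) ≠ C.ln w (x w) ∧ C.ln z (y z) ≠ C.ln w (y w) ∧
        C.ln z (x z) ≠ C.ln w (y w)) := by
  have hN' : C.s < Fintype.card Y := by omega
  choose pt1 pt2 hpt using C.two
  have hUs : ∀ m, C.Usable p Q1 m ↔ Us C p Q1 m := fun m => Iff.rfl
  obtain ⟨f, hf1, hf2, hf3⟩ := rainbow_mixed (V := U × E × Option (Y × Y)) (X := U)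
    (fun v => v.1) (fun v => C.pl v.1 v.2.1) (fun v => v.2.2 ≠ none) (g1 C) (g2 C)
    (wA C p Q1 J a b) (wA_nonneg C Q1 hN')
    (by
      intro v hv hn
      rw [not_not] at hn
      obtain ⟨h1, h2⟩ := pos_none C hv hn
      exact pF C Q1 hJ hN' h1 h2)
    (by
      intro v hv hn
      obtain ⟨q, hq⟩ := Option.ne_none_iff_exists'.1 hn
      have e1 : g1 C v = some (C.ln v.1 q.1) := by
        unfold g1
        rw [hq]
        rfl
      have e2 : g2 C v = some (C.ln v.1 q.2) := by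
        unfold g2
        rw [hq]
        rfl
      have k1 := ln_load C Q1 hJ hp hN hN8 hD hsp v.1 q.1
      have k2 := ln_load C Q1 hJ hp hN hN8 hD hsp v.1 q.2
      have k3 : ∑ u ∈ univ.filter
          (fun u : U × E × Option (Y × Y) => C.pl u.1 u.2.1 = C.pl v.1 v.2.1),
          wA C p Q1 J a b u ≤ 1 / 2 := by
        rcases pos_some C hv hq with ⟨h1, h2, -⟩ | ⟨h1, -, h3, h4⟩
        · exact pT C Q1 hJ hN' h1 h2
        · exact pX C Q1 hJ hN hN8 h1 h3 h4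
      have k4 := (add_le_add (add_le_add k3 k1) k2).trans (by norm_num : (1 / 2 + 1 / 4 + 1 / 4 : ℝ) ≤ 1)
      refine le_trans (le_of_eq ?_) k4
      rw [e1, e2]
      congr!)
    (by
      intro z
      convert htot z using 2)
  have hx1 : ∀ z, (f z).2.2 ≠ none → ∃ q, (f z).2.2 = some q ∧
      g1 C (f z) = some (C.ln z q.1) ∧ g2 C (f z) = some (C.ln z q.2) := by
    intro z hn
    obtain ⟨q, hq⟩ := Option.ne_none_iff_exists'.1 hn
    refine ⟨q, hq, ?_, ?_⟩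
    · unfold g1
      rw [hq, hf1 z]
      rfl
    · unfold g2
      rw [hq, hf1 z]
      rfl
  refine ⟨univ.filter (fun z => (f z).2.2 = none), fun z => (f z).2.1,
    fun z => ((f z).2.2.getD (pt1 (f z).2.1, pt2 (f z).2.1)).1,
    fun z => ((f z).2.2.getD (pt1 (f z).2.1, pt2 (f z).2.1)).2, ?_, ?_, ?_, ?_⟩
  · intro z hz
    rw [Finset.mem_filter] at hz
    have h1 := pos_none C (hf2 z) hz.2
    rw [hf1 z] at h1
    exact ⟨h1.1, (hUs _).2 h1.2⟩
  · intro z _ w _ hzw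
    have h1 := (hf3 z w hzw).1
    rwa [hf1 z, hf1 w] at h1
  · intro z hz
    have hn : (f z).2.2 ≠ none := fun h => hz (Finset.mem_filter.2 ⟨Finset.mem_univ _, h⟩)
    obtain ⟨q, hq, -, -⟩ := hx1 z hn
    have h1 := pos_some C (hf2 z) hq
    rw [hf1 z] at h1
    simp only [hq, Option.getD_some]
    rcases h1 with ⟨h1, h2, h3⟩ | ⟨h1, h2, h3, h4⟩
    · rw [h3]
      exact ⟨h1, hJ.ona _ h2, hJ.onb _ h2, hJ.ne _ h2, hQa _ h2, hQb _ h2,
        fun h => absurd (hJ.thin _ h2) (not_lt.2 h.1)⟩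
    · rw [od, Finset.mem_offDiag, Finset.mem_filter, Finset.mem_filter] at h2
      exact ⟨h1, h2.1.2, h2.2.1.2, h2.2.2, h2.1.1, h2.2.1.1, fun h => h4 ((hUs _).1 h)⟩
  · intro z w hz hw hzw
    have hnz : (f z).2.2 ≠ none := fun h => hz (Finset.mem_filter.2 ⟨Finset.mem_univ _, h⟩)
    have hnw : (f w).2.2 ≠ none := fun h => hw (Finset.mem_filter.2 ⟨Finset.mem_univ _, h⟩)
    obtain ⟨q, hq, e1, e2⟩ := hx1 z hnz
    obtain ⟨r, hr, e3, e4⟩ := hx1 w hnw
    obtain ⟨h1, h2⟩ := hf3 z w hzw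
    obtain ⟨h3, h4, h5⟩ := h2 hnz hnw
    rw [hf1 z, hf1 w] at h1
    rw [e1, e3] at h3
    rw [e2, e4] at h4
    rw [e1, e4] at h5
    simp only [hq, hr, Option.getD_some]
    exact ⟨h1, fun h => h3 (congrArg some h), fun h => h4 (congrArg some h),
      fun h => h5 (congrArg some h)⟩

/-- **case (b)** of the dense case: the family is small -/
theorem case_b (C : Cone Y U E G P R) {a : ℕ} (ha : 3000 ≤ a) (hN : a ^ 40 ≤ Fintype.card Y)
    (hN2 : Fintype.card Y ≤ 2 * a ^ 40) (hs : C.s ≤ a ^ 34) {J : Finset E} {α β : E → Y}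
    (hJ : C.Fam (a ^ 19) a J α β)
    (hdef : ∀ z, 1 ≤ C.Fz (a ^ 19) z + (C.Jz J z : ℝ) / (4 * Fintype.card Y))
    (hsmall : a ^ 3 * J.card < 8 * Fintype.card Y) : C.Good := by
  have hP : 3000 ≤ a ^ 19 := le_trans ha (Nat.le_self_pow (by norm_num) a)
  have hpow : ∀ n, 1 ≤ a ^ n := fun n => Nat.one_le_pow _ _ (by omega)
  have h34 : a ^ 40 = a ^ 6 * a ^ 34 := by rw [← pow_add]
  have h6 : a ^ 6 = a * a ^ 5 := by rw [← pow_succ']
  have h5 : 1 ≤ a ^ 5 := hpow 5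
  have hNs : 3000 * C.s ≤ Fintype.card Y := by
    have h1 : 3000 * a ^ 34 ≤ a ^ 6 * a ^ 34 :=
      Nat.mul_le_mul_right _ (ha.trans (Nat.le_self_pow (by norm_num) a))
    omega
  have hD : 4 * C.s * a ≤ Fintype.card Y := by
    calc 4 * C.s * a ≤ 4 * a ^ 34 * a := Nat.mul_le_mul_right _ (Nat.mul_le_mul_left _ hs)
      _ = (4 * a) * a ^ 34 := by ring
      _ ≤ a ^ 6 * a ^ 34 := by
          refine Nat.mul_le_mul_right _ ?_
          rw [h6]
          have h4 : 4 ≤ a ^ 5 := (by omega : 4 ≤ a).trans (Nat.le_self_pow (by norm_num) a)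
          calc 4 * a ≤ a ^ 5 * a := Nat.mul_le_mul_right _ h4
            _ = a * a ^ 5 := Nat.mul_comm _ _
      _ ≤ Fintype.card Y := by rw [← h34]; exact hN
  have hsp : 64 * C.s ≤ a ^ 19 * (a ^ 19 - 1) := by
    have h1 : a ^ 19 * (a ^ 19 - 1) + a ^ 19 = a ^ 38 := by
      have h2 : a ^ 38 = a ^ 19 * a ^ 19 := by rw [← pow_add]
      rw [h2, Nat.mul_sub_one]
      have : a ^ 19 ≤ a ^ 19 * a ^ 19 := Nat.le_mul_self _
      omega
    have h3 : a ^ 38 = a ^ 4 * a ^ 34 := by rw [← pow_add]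
    have h4 : 65 * a ^ 34 ≤ a ^ 4 * a ^ 34 :=
      Nat.mul_le_mul_right _ ((by omega : 65 ≤ a).trans (Nat.le_self_pow (by norm_num) a))
    have h5 : a ^ 19 ≤ a ^ 34 := Nat.pow_le_pow_right (by omega) (by norm_num)
    omega
  have hN8 : 8 ≤ Fintype.card Y := by
    have h1 : a ≤ a ^ 40 := Nat.le_self_pow (by norm_num) a
    omega
  set Q1 := Pool.Agent.Helper78.RF.Q1 J α β with hQ1
  have hQc : Q1.card ≤ 2 * J.card := Pool.Agent.Helper78.RF.card_Q1 J α β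
  obtain ⟨UF, l, x, y, g1, g2, g3, g4⟩ := mixed_of_totals C (Q1 := Q1) hJ
    (fun l hl => Pool.Agent.Helper78.RF.mem_Q1a hl) (fun l hl => Pool.Agent.Helper78.RF.mem_Q1b hl)
    (by omega) (by omega) hN8 hD hsp (by
      intro z
      by_cases hz : C.Bad J z
      · exact total_bad C (by omega) Q1 J α β z hz (hdef z)
      · exact total_good C ha hN hN2 hs α β hQc hsmall z hz (hdef z))
  obtain ⟨n1, n2, n3⟩ := num_k ha hN2 hs
  exact C.good_of_mixed n1 n2 n3 Q1 UF l x y g1 g2 g3 g4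

end Pool.Agent.Helper63.RF
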