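import Pool.Agent.Helper63.RF.Vert
import Pool.Agent.Helper43.RF.Basic

/-!
# MP_47cd0b, rank four, dense case (b): loads
-/

set_option autoImplicit false
set_option linter.unusedSectionVars false

namespace Pool.Agent.Helper63.RF

open Finset Classical H20SW

variable {Y U E G P R : Type} [Fintype Y] [Fintype U] [Fintype E]
variable (C : Cone Y U E G P R) {p : ℕ} (Q1 : Finset Y) {J : Finset E} {a b : E → Y}

/-- the weight of a vertex -/
noncomputable def wA (C : Cone Y U E G P R) (p : ℕ) (Q1 : Finset Y) (J : Finset E) (a b : E → Y)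
    (v : U × E × Option (Y × Y)) : ℝ :=
  wF C p Q1 v + wT C J a b v + wX C p Q1 J v

theorem wA_nonneg (hN : C.s < Fintype.card Y) (v : U × E × Option (Y × Y)) :
    0 ≤ wA C p Q1 J a b v :=
  add_nonneg (add_nonneg (wF_nonneg C p Q1 hN v) (wT_nonneg C J a b v)) (wX_nonneg C p Q1 J hN v)

theorem oA (w : U) (l : E) :
    ∑ o, wA C p Q1 J a b (w, l, o) = (if C.ok w l ∧ Us C p Q1 l then iw C l else 0) +
      (if l ∈ J ∧ C.ok w l then (1 : ℝ) / (2 * Fintype.card Y) else 0) +
      (if C.Bad J w ∧ C.ok w l ∧ p ≤ C.tl l ∧ ¬ Us C p Q1 l then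
        ((od C Q1 l).card : ℝ) * (iw C l / ((od C Q1 l).card : ℝ)) else 0) := by
  unfold wA
  rw [Finset.sum_add_distrib, Finset.sum_add_distrib, oF, oT, oX]

theorem mul_div_le' (n : ℕ) {x : ℝ} (hx : 0 ≤ x) : (n : ℝ) * (x / (n : ℝ)) ≤ x := by
  rcases Nat.eq_zero_or_pos n with rfl | h
  · simpa using hx
  · have : (0 : ℝ) < n := by exact_mod_cast h
    rw [mul_div_cancel₀ _ this.ne']

theorem pF {D : ℕ} (hJ : C.Fam p D J a b) (hN : C.s < Fintype.card Y) {z : U} {l : E} (hl : C.ok z l)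
    (hu : Us C p Q1 l) :
    ∑ u ∈ univ.filter (fun u : U × E × Option (Y × Y) => C.pl u.1 u.2.1 = C.pl z l),
      wA C p Q1 J a b u ≤ 1 := by
  rw [pl_sum]
  refine le_trans (Finset.sum_le_sum (g := fun _ => iw C l) fun w _ => ?_)
    (Pool.Agent.Helper78.RF.load_pl C z l hl hN)
  rw [oA, if_neg (fun h : l ∈ J ∧ C.ok w l => absurd (hJ.thin l h.1) (not_lt.2 hu.1)),
    if_neg (fun h : C.Bad J w ∧ C.ok w l ∧ p ≤ C.tl l ∧ ¬ Us C p Q1 l => h.2.2.2 hu)]
  have := (iw_pos C hN l).le
  split_ifs <;> linarith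

theorem pT {D : ℕ} (hJ : C.Fam p D J a b) (hN : C.s < Fintype.card Y) {z : U} {l : E} (hl : C.ok z l)
    (hlJ : l ∈ J) :
    ∑ u ∈ univ.filter (fun u : U × E × Option (Y × Y) => C.pl u.1 u.2.1 = C.pl z l),
      wA C p Q1 J a b u ≤ 1 / 2 := by
  rw [pl_sum]
  have hth := hJ.thin l hlJ
  have hN0 : (0 : ℝ) < Fintype.card Y := by
    have : 0 < Fintype.card Y := by omega
    exact_mod_cast this
  have h1 : ∀ w ∈ univ.filter (fun w => C.pl w l = C.pl z l), ∑ o, wA C p Q1 J a b (w, l, o) ≤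
      (1 : ℝ) / (2 * Fintype.card Y) := by
    intro w _
    rw [oA, if_neg (fun h : C.ok w l ∧ Us C p Q1 l => absurd hth (not_lt.2 h.2.1)),
      if_neg (fun h : C.Bad J w ∧ C.ok w l ∧ p ≤ C.tl l ∧ ¬ Us C p Q1 l =>
        absurd hth (not_lt.2 h.2.2.1))]
    have : (0 : ℝ) ≤ 1 / (2 * Fintype.card Y) := by positivity
    split_ifs <;> linarith
  refine (Finset.sum_le_sum h1).trans ?_
  rw [Finset.sum_const, nsmul_eq_mul]
  have h2 := Pool.Agent.Helper78.RF.card_pl_real C z l hl
  have h3 : (0 : ℝ) ≤ C.tl l := Nat.cast_nonneg _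
  rw [mul_one_div, div_le_div_iff₀ (by positivity) (by norm_num)]
  linarith

theorem pX {D : ℕ} (hJ : C.Fam p D J a b) (hN : 2 * C.s ≤ Fintype.card Y) (hN8 : 8 ≤ Fintype.card Y)
    {z : U} {l : E} (hl : C.ok z l) (hf : p ≤ C.tl l) (hu : ¬ Us C p Q1 l) :
    ∑ u ∈ univ.filter (fun u : U × E × Option (Y × Y) => C.pl u.1 u.2.1 = C.pl z l),
      wA C p Q1 J a b u ≤ 1 / 2 := by
  have hN' : C.s < Fintype.card Y := by omega
  rw [pl_sum]
  have h0 := (iw_pos C hN' l).le
  have h1 : ∀ w ∈ univ.filter (fun w => C.pl w l = C.pl z l), ∑ o, wA C p Q1 J a b (w, l, o) ≤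
      if C.Bad J w then iw C l else 0 := by
    intro w _
    rw [oA, if_neg (fun h : C.ok w l ∧ Us C p Q1 l => hu h.2),
      if_neg (fun h : l ∈ J ∧ C.ok w l => absurd (hJ.thin l h.1) (not_lt.2 hf)), zero_add, zero_add]
    by_cases hb : C.Bad J w
    · rw [if_pos hb]
      split_ifs
      · exact mul_div_le' _ h0
      · exact h0
    · rw [if_neg hb, if_neg (fun h => hb h.1)]
  refine (Finset.sum_le_sum h1).trans ?_
  rw [← Finset.sum_filter, Finset.filter_filter, Finset.sum_const, nsmul_eq_mul]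
  have h2 : ((univ.filter fun w => C.pl w l = C.pl z l ∧ C.Bad J w).card : ℝ) ≤ 2 := by
    exact_mod_cast C.bad_pl J z l hl
  have h3 : iw C l ≤ 1 / 4 := by
    unfold iw
    have h4 : C.tl l ≤ C.s := C.short l
    have h5 : ((2 * C.tl l : ℕ) : ℝ) ≤ (Fintype.card Y : ℝ) := by
      exact_mod_cast (by omega : 2 * C.tl l ≤ Fintype.card Y)
    have h6 : (8 : ℝ) ≤ Fintype.card Y := by exact_mod_cast hN8
    push_cast at h5
    rw [div_le_div_iff₀ (by linarith) (by norm_num)]
    linarith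
  calc _ ≤ 2 * iw C l := mul_le_mul_of_nonneg_right h2 h0
    _ ≤ 1 / 2 := by linarith

theorem KT (w : U) (x0 : Y) :
    ∑ l, ∑ q ∈ univ.filter (fun q : Y × Y => q.1 = x0 ∨ q.2 = x0), wT C J a b (w, l, some q) ≤
      (Cone.dg J a b x0 : ℝ) * ((1 : ℝ) / (2 * Fintype.card Y)) := by
  have h0 : (0 : ℝ) ≤ 1 / (2 * Fintype.card Y) := by positivity
  have h1 : ∀ l, ∑ q ∈ univ.filter (fun q : Y × Y => q.1 = x0 ∨ q.2 = x0),
      wT C J a b (w, l, some q) ≤
      if l ∈ J ∧ (a l = x0 ∨ b l = x0) then (1 : ℝ) / (2 * Fintype.card Y) else 0 := by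
    intro l
    by_cases hc : l ∈ J ∧ (a l = x0 ∨ b l = x0)
    · rw [if_pos hc]
      have h2 : ∑ q ∈ univ.filter (fun q : Y × Y => q.1 = x0 ∨ q.2 = x0),
          wT C J a b (w, l, some q) ≤ ∑ q : Y × Y, wT C J a b (w, l, some q) :=
        Finset.sum_le_sum_of_subset_of_nonneg (Finset.filter_subset _ _)
          fun q _ _ => wT_nonneg C J a b _
      have h3 := oT C J a b w l
      rw [Fintype.sum_option] at h3
      have h4 := wT_nonneg C J a b (w, l, none)
      have h5 : (if l ∈ J ∧ C.ok w l then (1 : ℝ) / (2 * Fintype.card Y) else 0) ≤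
          (1 : ℝ) / (2 * Fintype.card Y) := by
        split_ifs
        · exact le_rfl
        · exact h0
      linarith
    · rw [if_neg hc]
      refine le_of_eq (Finset.sum_eq_zero fun q hq => ?_)
      unfold wT
      rw [if_neg]
      rintro ⟨h2, h3, -⟩
      have h4 : q = (a l, b l) := Option.some.inj h2
      rw [Finset.mem_filter] at hq
      apply hc
      refine ⟨h3, ?_⟩
      rw [h4] at hq
      exact hq.2
  refine (Finset.sum_le_sum fun l _ => h1 l).trans ?_
  rw [← Finset.sum_filter, Finset.sum_const, nsmul_eq_mul]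
  apply le_of_eq
  congr 2
  unfold Cone.dg
  congr 1
  ext l
  simp

theorem KX (hp : 4 ≤ p) (hN : C.s < Fintype.card Y) (w : U) (x0 : Y) :
    ∑ l, ∑ q ∈ univ.filter (fun q : Y × Y => q.1 = x0 ∨ q.2 = x0), wX C p Q1 J (w, l, some q) ≤
      (Fintype.card Y : ℝ) / ((p : ℝ) - 1) *
        ((4 : ℝ) / ((p : ℝ) * ((Fintype.card Y : ℝ) - C.s))) := by
  have hp' : (4 : ℝ) ≤ p := by exact_mod_cast hp
  have hNs : (0 : ℝ) < (Fintype.card Y : ℝ) - C.s := by
    have : (C.s : ℝ) < Fintype.card Y := by exact_mod_cast hN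
    linarith
  set W : ℝ := (4 : ℝ) / ((p : ℝ) * ((Fintype.card Y : ℝ) - C.s)) with hW
  have hW0 : 0 ≤ W := by positivity
  have h1 : ∀ l, ∑ q ∈ univ.filter (fun q : Y × Y => q.1 = x0 ∨ q.2 = x0),
      wX C p Q1 J (w, l, some q) ≤ if C.on x0 l ∧ p ≤ C.tl l then W else 0 := by
    intro l
    by_cases hX : C.Bad J w ∧ C.ok w l ∧ p ≤ C.tl l ∧ ¬ Us C p Q1 l
    · by_cases hx : C.on x0 l
      · rw [if_pos ⟨hx, hX.2.2.1⟩]
        have h2 : ∀ q : Y × Y, wX C p Q1 J (w, l, some q) =
            if q ∈ od C Q1 l then iw C l / ((od C Q1 l).card : ℝ) else 0 := by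
          intro q
          unfold wX
          by_cases hq : q ∈ od C Q1 l
          · rw [if_pos ⟨⟨q, hq, rfl⟩, hX⟩, if_pos hq]
          · rw [if_neg, if_neg hq]
            rintro ⟨⟨q', hq', e⟩, -⟩
            exact hq ((Option.some.inj e) ▸ hq')
        simp only [h2]
        rw [← Finset.sum_filter, Finset.sum_const, nsmul_eq_mul]
        have h3 : ((univ.filter (fun q : Y × Y => q.1 = x0 ∨ q.2 = x0)).filter
            (fun q => q ∈ od C Q1 l)) = (od C Q1 l).filter (fun q => q.1 = x0 ∨ q.2 = x0) := by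
          ext q
          simp only [Finset.mem_filter, Finset.mem_univ, true_and]
          exact and_comm
        rw [h3]
        have h4 : ((od C Q1 l).filter (fun q => q.1 = x0 ∨ q.2 = x0)).card ≤
            2 * ((Q1.filter fun x => C.on x l).card - 1) :=
          Pool.Agent.Helper78.RF.card_pairs_at _ _
        have h5 : (od C Q1 l).card = (Q1.filter fun x => C.on x l).card *
            ((Q1.filter fun x => C.on x l).card - 1) := by
          unfold od
          rw [Finset.offDiag_card, Nat.mul_sub_one]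
        have hbr : p < 2 * (Q1.filter fun x => C.on x l).card := by
          refine Pool.Agent.Helper43.RF.broken_half C hX.2.2.1 ?_
          by_contra h
          exact hX.2.2.2 ⟨hX.2.2.1, not_lt.1 h⟩
        rw [h5]
        set c := (Q1.filter fun x => C.on x l).card with hc
        have hc2 : 2 < c := by omega
        have hc1 : (1 : ℝ) < c := by exact_mod_cast (by omega : 1 < c)
        have hcp : (p : ℝ) ≤ 2 * c := by exact_mod_cast hbr.le
        have h4' : (((od C Q1 l).filter (fun q => q.1 = x0 ∨ q.2 = x0)).card : ℝ) ≤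
            2 * ((c : ℝ) - 1) := by
          have h6 : (((od C Q1 l).filter (fun q => q.1 = x0 ∨ q.2 = x0)).card : ℝ) ≤
              ((2 * (c - 1) : ℕ) : ℝ) := by exact_mod_cast h4
          rwa [Nat.cast_mul, Nat.cast_sub (by omega), Nat.cast_one, Nat.cast_ofNat] at h6
        have h7 : ((c * (c - 1) : ℕ) : ℝ) = (c : ℝ) * ((c : ℝ) - 1) := by
          rw [Nat.cast_mul, Nat.cast_sub (by omega), Nat.cast_one]
        rw [h7]
        have hi := iw_pos C hN l
        have hi2 : iw C l ≤ 1 / ((Fintype.card Y : ℝ) - C.s) := by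
          unfold iw
          apply one_div_le_one_div_of_le hNs
          have : (C.tl l : ℝ) ≤ C.s := by exact_mod_cast C.short l
          linarith
        have hcc : (0 : ℝ) < (c : ℝ) * ((c : ℝ) - 1) := mul_pos (by linarith) (by linarith)
        calc _ ≤ 2 * ((c : ℝ) - 1) * (iw C l / ((c : ℝ) * ((c : ℝ) - 1))) :=
              mul_le_mul_of_nonneg_right h4' (by positivity)
          _ = 2 * iw C l / c := by
              have : (c : ℝ) - 1 ≠ 0 := by linarith
              field_simp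
          _ ≤ 2 * (1 / ((Fintype.card Y : ℝ) - C.s)) / c := by
              gcongr
          _ ≤ W := by
              rw [hW, div_le_div_iff₀ (by linarith) (by positivity)]
              have e : 2 * (1 / ((Fintype.card Y : ℝ) - C.s)) *
                  ((p : ℝ) * ((Fintype.card Y : ℝ) - C.s)) = 2 * p := by
                field_simp
              rw [e]
              linarith
      · rw [if_neg (fun h => hx h.1)]
        refine le_of_eq (Finset.sum_eq_zero fun q hq => ?_)
        unfold wX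
        rw [if_neg]
        rintro ⟨⟨q', hq', e⟩, -⟩
        have e' : q = q' := Option.some.inj e
        subst e'
        rw [od, Finset.mem_offDiag, Finset.mem_filter, Finset.mem_filter] at hq'
        rw [Finset.mem_filter] at hq
        rcases hq.2 with h | h
        · rw [h] at hq'
          exact hx hq'.1.2
        · rw [h] at hq'
          exact hx hq'.2.1.2
    · have h2 : ∀ q : Y × Y, wX C p Q1 J (w, l, some q) = 0 := by
        intro q
        unfold wX
        rw [if_neg]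
        exact fun h => hX h.2
      simp only [h2, Finset.sum_const_zero]
      split_ifs
      · exact hW0
      · exact le_rfl
  refine (Finset.sum_le_sum fun l _ => h1 l).trans ?_
  rw [← Finset.sum_filter, Finset.sum_const, nsmul_eq_mul]
  refine mul_le_mul_of_nonneg_right ?_ hW0
  have h2 := Pool.Agent.Helper78.RF.fat_at C p x0
  rw [le_div_iff₀ (by linarith)]
  have h3 : (((univ.filter fun l => C.on x0 l ∧ p ≤ C.tl l).card * (p - 1) : ℕ) : ℝ) ≤
      (Fintype.card Y : ℝ) := by exact_mod_cast h2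
  rwa [Nat.cast_mul, Nat.cast_sub (by omega), Nat.cast_one] at h3

/-- the load of a line -/
theorem ln_load {D : ℕ} (hJ : C.Fam p D J a b) (hp : 4 ≤ p) (hN : 2 * C.s ≤ Fintype.card Y)
    (hN8 : 8 ≤ Fintype.card Y) (hD : 4 * C.s * D ≤ Fintype.card Y)
    (hsp : 64 * C.s ≤ p * (p - 1)) (z : U) (x0 : Y) :
    ∑ u ∈ univ.filter (fun u : U × E × Option (Y × Y) => u.2.2 ≠ none ∧
      (g1 C u = some (C.ln z x0) ∨ g2 C u = some (C.ln z x0))), wA C p Q1 J a b u ≤ 1 / 4 := by
  have hN' : C.s < Fintype.card Y := by omega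
  have hp' : (4 : ℝ) ≤ p := by exact_mod_cast hp
  have hNr : (8 : ℝ) ≤ Fintype.card Y := by exact_mod_cast hN8
  have hs0 : (0 : ℝ) ≤ C.s := Nat.cast_nonneg _
  have h2s : 2 * (C.s : ℝ) ≤ Fintype.card Y := by exact_mod_cast hN
  have hNs : (0 : ℝ) < (Fintype.card Y : ℝ) - C.s := by linarith
  have hDr : 4 * (C.s : ℝ) * D ≤ Fintype.card Y := by exact_mod_cast hD
  have hspr : 64 * (C.s : ℝ) ≤ (p : ℝ) * ((p : ℝ) - 1) := by
    have : ((64 * C.s : ℕ) : ℝ) ≤ ((p * (p - 1) : ℕ) : ℝ) := by exact_mod_cast hsp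
    rwa [Nat.cast_mul, Nat.cast_mul, Nat.cast_sub (by omega), Nat.cast_one,
      Nat.cast_ofNat] at this
  set W : ℝ := (Fintype.card Y : ℝ) / ((p : ℝ) - 1) *
        ((4 : ℝ) / ((p : ℝ) * ((Fintype.card Y : ℝ) - C.s))) with hW
  have hp1 : (0 : ℝ) < (p : ℝ) - 1 := by linarith
  have hW0 : 0 ≤ W := by positivity
  have hK : ∀ w, ∑ l, ∑ q ∈ univ.filter (fun q : Y × Y => q.1 = x0 ∨ q.2 = x0),
      wA C p Q1 J a b (w, l, some q) ≤ (D : ℝ) * ((1 : ℝ) / (2 * Fintype.card Y)) + W := by
    intro w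
    have h1 := KT C (J := J) (a := a) (b := b) w x0
    have h2 := KX C Q1 (J := J) hp hN' w x0
    have h3 : (Cone.dg J a b x0 : ℝ) * ((1 : ℝ) / (2 * Fintype.card Y)) ≤
        (D : ℝ) * ((1 : ℝ) / (2 * Fintype.card Y)) := by
      refine mul_le_mul_of_nonneg_right ?_ (by positivity)
      exact_mod_cast hJ.deg x0
    have h4 : ∀ l (q : Y × Y), wA C p Q1 J a b (w, l, some q) =
        wT C J a b (w, l, some q) + wX C p Q1 J (w, l, some q) := by
      intro l q
      unfold wA
      have : wF C p Q1 (w, l, some q) = 0 := by simp [wF]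
      rw [this, zero_add]
    simp only [h4, Finset.sum_add_distrib]
    linarith
  refine (ln_sum C _ (wA_nonneg C Q1 hN') z x0 _ (by positivity) hK).trans ?_
  rw [mul_add]
  have e1 : (C.s : ℝ) * ((D : ℝ) * ((1 : ℝ) / (2 * Fintype.card Y))) ≤ 1 / 8 := by
    rw [mul_one_div, mul_div_assoc', div_le_div_iff₀ (by positivity) (by norm_num)]
    linarith
  have e2 : (C.s : ℝ) * W ≤ 1 / 8 := by
    rw [hW, div_mul_div_comm, mul_div_assoc', div_le_div_iff₀ (by positivity) (by norm_num)]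
    nlinarith [mul_le_mul_of_nonneg_right hspr hNs.le, mul_nonneg hs0 hNs.le,
      mul_nonneg hs0 (by linarith : (0 : ℝ) ≤ (Fintype.card Y : ℝ) - 2 * C.s)]
  linarith

end Pool.Agent.Helper63.RF
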