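import Pool.Agent.Helper63.HM.Hall

/-!
# Rainbow matchings with mixed vertices

Vertices with one resource (a plane) and vertices with three resources (a plane and two lines).
The types of planes and of lines need not be finite.
-/

set_option autoImplicit false
set_option linter.unusedSectionVars false

namespace Pool.Agent.Helper63.RF

open Finset

open Classical in
/-- `pl v` is the plane of the vertex `v`, and `g1 v`, `g2 v` are its lines if `hv v` holds. -/
theorem rainbow_mixed {V X P G : Type} [Fintype V] [Finite X] (col : V → X) (pl : V → P)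
    (hv : V → Prop) (g1 g2 : V → G) (w : V → ℝ) (hw0 : ∀ v, 0 ≤ w v)
    (h1 : ∀ v, 0 < w v → ¬ hv v → ∑ u ∈ univ.filter (fun u => pl u = pl v), w u ≤ 1)
    (h2 : ∀ v, 0 < w v → hv v → ∑ u ∈ univ.filter (fun u => pl u = pl v), w u
      + ∑ u ∈ univ.filter (fun u => hv u ∧ (g1 u = g1 v ∨ g2 u = g1 v)), w u
      + ∑ u ∈ univ.filter (fun u => hv u ∧ (g1 u = g2 v ∨ g2 u = g2 v)), w u ≤ 1)
    (hx : ∀ x, 1 ≤ ∑ v ∈ univ.filter (fun v => col v = x), w v) :
    ∃ f : X → V, (∀ x, col (f x) = x) ∧ (∀ x, 0 < w (f x)) ∧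
      ∀ x y, x ≠ y → pl (f x) ≠ pl (f y) ∧ (hv (f x) → hv (f y) →
        g1 (f x) ≠ g1 (f y) ∧ g2 (f x) ≠ g2 (f y) ∧ g1 (f x) ≠ g2 (f y)) := by
  let Q : Type := (Set.range pl) ⊕ ((Set.range g1 ∪ Set.range g2 : Set G))
  let R : V → Q → Prop := fun v q => match q with
    | Sum.inl p => p.1 = pl v
    | Sum.inr g => hv v ∧ (g1 v = g.1 ∨ g2 v = g.1)
  have hfQ : Finite Q := by
    have : Finite (Set.range pl) := Set.finite_range pl
    have : Finite (Set.range g1 ∪ Set.range g2 : Set G) :=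
      (Set.finite_range g1).union (Set.finite_range g2)
    infer_instance
  have hFQ : Fintype Q := Fintype.ofFinite Q
  have hfin : ∀ p : V → Prop, ∑ᶠ u ∈ {u | p u}, w u = ∑ u ∈ univ.filter p, w u := by
    intro p
    rw [finsum_mem_eq_finite_toFinset_sum _ (Set.toFinite _)]
    congr 1
    ext u
    simp
  let F : Q → ℝ := fun q => ∑ u ∈ univ.filter (fun u => R u q), w u
  have hF0 : ∀ q, 0 ≤ F q := fun q => Finset.sum_nonneg fun u _ => hw0 u
  let qp : V → Q := fun v => Sum.inl ⟨pl v, ⟨v, rfl⟩⟩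
  let q1 : V → Q := fun v => Sum.inr ⟨g1 v, Or.inl ⟨v, rfl⟩⟩
  let q2 : V → Q := fun v => Sum.inr ⟨g2 v, Or.inr ⟨v, rfl⟩⟩
  have eFp : ∀ v, F (qp v) = ∑ u ∈ univ.filter (fun u => pl u = pl v), w u := by
    intro v
    refine Finset.sum_congr ?_ fun _ _ => rfl
    ext u
    simp only [Finset.mem_filter, Finset.mem_univ, true_and]
    exact eq_comm
  have eF1 : ∀ v, F (q1 v) =
      ∑ u ∈ univ.filter (fun u => hv u ∧ (g1 u = g1 v ∨ g2 u = g1 v)), w u := by
    intro v
    refine Finset.sum_congr ?_ fun _ _ => rfl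
    ext u
    simp only [Finset.mem_filter, Finset.mem_univ, true_and]
    exact Iff.rfl
  have eF2 : ∀ v, F (q2 v) =
      ∑ u ∈ univ.filter (fun u => hv u ∧ (g1 u = g2 v ∨ g2 u = g2 v)), w u := by
    intro v
    refine Finset.sum_congr ?_ fun _ _ => rfl
    ext u
    simp only [Finset.mem_filter, Finset.mem_univ, true_and]
    exact Iff.rfl
  obtain ⟨f, hf1, hf2, hf3⟩ := Pool.Agent.Helper63.HM.rainbow R col w hw0 (by
    intro v hv0
    have e1 : ∀ q, ∑ᶠ u ∈ {u | R u q}, w u = F q := fun q => hfin _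
    rw [finsum_mem_congr rfl (fun q _ => e1 q),
      finsum_mem_eq_finite_toFinset_sum _ (Set.toFinite _)]
    by_cases hvv : hv v
    · have hsub : (Set.toFinite {q | R v q}).toFinset ⊆ {qp v} ∪ ({q1 v} ∪ {q2 v}) := by
        intro q hq
        rw [Set.Finite.mem_toFinset] at hq
        simp only [Finset.mem_union, Finset.mem_singleton]
        rcases q with ⟨p, hp⟩ | ⟨g, hg⟩
        · left
          have hq' : p = pl v := hq
          subst hq'
          rfl
        · right
          have hq' : hv v ∧ (g1 v = g ∨ g2 v = g) := hq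
          rcases hq'.2 with h | h
          · left
            subst h
            rfl
          · right
            subst h
            rfl
      refine (Finset.sum_le_sum_of_subset_of_nonneg hsub (fun q _ _ => hF0 q)).trans ?_
      have hu : ∀ A B : Finset Q, ∑ q ∈ A ∪ B, F q ≤ ∑ q ∈ A, F q + ∑ q ∈ B, F q := by
        intro A B
        have h3 := Finset.sum_union_inter (s₁ := A) (s₂ := B) (f := F)
        have h4 : 0 ≤ ∑ q ∈ A ∩ B, F q := Finset.sum_nonneg fun q _ => hF0 q
        linarith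
      have k1 := hu {qp v} ({q1 v} ∪ {q2 v})
      have k2 := hu {q1 v} {q2 v}
      rw [Finset.sum_singleton] at k1 k2
      rw [Finset.sum_singleton] at k2
      have k3 := h2 v hv0 hvv
      rw [← eFp, ← eF1, ← eF2] at k3
      linarith
    · have hsub : (Set.toFinite {q | R v q}).toFinset ⊆ {qp v} := by
        intro q hq
        rw [Set.Finite.mem_toFinset] at hq
        simp only [Finset.mem_singleton]
        rcases q with ⟨p, hp⟩ | ⟨g, hg⟩
        · have hq' : p = pl v := hq
          subst hq'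
          rfl
        · have hq' : hv v ∧ (g1 v = g ∨ g2 v = g) := hq
          exact absurd hq'.1 hvv
      refine (Finset.sum_le_sum_of_subset_of_nonneg hsub (fun q _ _ => hF0 q)).trans ?_
      rw [Finset.sum_singleton, eFp]
      exact h1 v hv0 hvv) (by
    intro x
    rw [hfin]
    convert hx x using 2)
  refine ⟨f, hf1, hf2, fun x y hxy => ⟨fun h => ?_, fun hx1 hy1 => ⟨fun h => ?_, fun h => ?_,
    fun h => ?_⟩⟩⟩
  · exact hf3 x y hxy (qp (f x)) ⟨rfl, h⟩
  · exact hf3 x y hxy (q1 (f x)) ⟨⟨hx1, Or.inl rfl⟩, ⟨hy1, Or.inl h.symm⟩⟩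
  · exact hf3 x y hxy (q2 (f x)) ⟨⟨hx1, Or.inr rfl⟩, ⟨hy1, Or.inr h.symm⟩⟩
  · exact hf3 x y hxy (q1 (f x)) ⟨⟨hx1, Or.inl rfl⟩, ⟨hy1, Or.inr h.symm⟩⟩

end Pool.Agent.Helper63.RF
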