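import Pool.Agent.Helper63.RF.Loads

/-!
# MP_47cd0b, rank four, dense case (b): totals
-/

set_option autoImplicit false
set_option linter.unusedSectionVars false

namespace Pool.Agent.Helper63.RF

open Finset Classical H20SW

variable {Y U E G P R : Type} [Fintype Y] [Fintype U] [Fintype E]
variable (C : Cone Y U E G P R)

/-- the weight of the usable allowed lines -/
noncomputable def uz (C : Cone Y U E G P R) (p : ℕ) (Q1 : Finset Y) (z : U) : ℝ :=
  ∑ l ∈ univ.filter (fun l => C.ok z l ∧ Us C p Q1 l), iw C l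

/-- the weight of the broken allowed lines -/
noncomputable def bz (C : Cone Y U E G P R) (p : ℕ) (Q1 : Finset Y) (z : U) : ℝ :=
  ∑ l ∈ univ.filter (fun l => C.ok z l ∧ p ≤ C.tl l ∧ ¬ Us C p Q1 l), iw C l

theorem Fz_split (p : ℕ) (Q1 : Finset Y) (z : U) : C.Fz p z = uz C p Q1 z + bz C p Q1 z := by
  unfold Cone.Fz uz bz
  rw [← Finset.sum_filter_add_sum_filter_not (univ.filter fun l => C.ok z l ∧ p ≤ C.tl l)
    (fun l => Us C p Q1 l), Finset.filter_filter, Finset.filter_filter]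
  congr 1
  · refine Finset.sum_congr ?_ fun _ _ => rfl
    ext l
    simp only [Finset.mem_filter, Finset.mem_univ, true_and]
    constructor
    · rintro ⟨⟨h1, -⟩, h3⟩
      exact ⟨h1, h3⟩
    · rintro ⟨h1, h3⟩
      exact ⟨⟨h1, h3.1⟩, h3⟩
  · refine Finset.sum_congr ?_ fun _ _ => rfl
    ext l
    simp only [Finset.mem_filter, Finset.mem_univ, true_and, and_assoc]

/-- the total of a user -/
theorem total (p : ℕ) (Q1 : Finset Y) (J : Finset E) (a b : E → Y) (z : U) :
    ∑ u ∈ univ.filter (fun u : U × E × Option (Y × Y) => u.1 = z), wA C p Q1 J a b u =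
      uz C p Q1 z + (C.Jz J z : ℝ) / (2 * Fintype.card Y) +
      ∑ l, (if C.Bad J z ∧ C.ok z l ∧ p ≤ C.tl l ∧ ¬ Us C p Q1 l then
        ((od C Q1 l).card : ℝ) * (iw C l / ((od C Q1 l).card : ℝ)) else 0) := by
  rw [col_sum]
  simp only [oA, Finset.sum_add_distrib]
  congr 2
  · unfold uz
    rw [Finset.sum_filter]
  · rw [← Finset.sum_filter, Finset.sum_const, nsmul_eq_mul, mul_one_div]
    unfold Cone.Jz
    congr 3
    ext l
    simp

theorem total_bad {p : ℕ} (hp : 4 ≤ p) (Q1 : Finset Y) (J : Finset E) (a b : E → Y) (z : U)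
    (hz : C.Bad J z)
    (hdef : 1 ≤ C.Fz p z + (C.Jz J z : ℝ) / (4 * Fintype.card Y)) :
    1 ≤ ∑ u ∈ univ.filter (fun u : U × E × Option (Y × Y) => u.1 = z), wA C p Q1 J a b u := by
  rw [total]
  have h1 : ∑ l, (if C.Bad J z ∧ C.ok z l ∧ p ≤ C.tl l ∧ ¬ Us C p Q1 l then
        ((od C Q1 l).card : ℝ) * (iw C l / ((od C Q1 l).card : ℝ)) else 0) = bz C p Q1 z := by
    unfold bz
    rw [Finset.sum_filter]
    refine Finset.sum_congr rfl fun l _ => ?_
    by_cases h : C.ok z l ∧ p ≤ C.tl l ∧ ¬ Us C p Q1 l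
    · rw [if_pos h, if_pos ⟨hz, h⟩]
      have hbr : p < 2 * (Q1.filter fun x => C.on x l).card := by
        refine Pool.Agent.Helper43.RF.broken_half C h.2.1 ?_
        by_contra h'
        exact h.2.2 ⟨h.2.1, not_lt.1 h'⟩
      have h5 : (od C Q1 l).card = (Q1.filter fun x => C.on x l).card *
          ((Q1.filter fun x => C.on x l).card - 1) := by
        unfold od
        rw [Finset.offDiag_card, Nat.mul_sub_one]
      have h6 : 0 < (od C Q1 l).card := by
        rw [h5]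
        exact Nat.mul_pos (by omega) (by omega)
      have h7 : ((od C Q1 l).card : ℝ) ≠ 0 := by exact_mod_cast h6.ne'
      rw [mul_div_cancel₀ _ h7]
    · rw [if_neg h, if_neg (fun h' => h h'.2)]
  rw [h1]
  rw [Fz_split C p Q1 z] at hdef
  have h2 : (C.Jz J z : ℝ) / (4 * Fintype.card Y) ≤ (C.Jz J z : ℝ) / (2 * Fintype.card Y) := by
    rcases Nat.eq_zero_or_pos (Fintype.card Y) with h | h
    · rw [h]
      simp
    · have : (0 : ℝ) < Fintype.card Y := by exact_mod_cast h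
      apply div_le_div_of_nonneg_left (Nat.cast_nonneg _) (by positivity)
      linarith
  linarith

theorem total_good {a : ℕ} (ha : 3000 ≤ a) (hN : a ^ 40 ≤ Fintype.card Y)
    (hN2 : Fintype.card Y ≤ 2 * a ^ 40) (hs : C.s ≤ a ^ 34) {J : Finset E} (α β : E → Y)
    {Q1 : Finset Y} (hQ1 : Q1.card ≤ 2 * J.card)
    (hsmall : a ^ 3 * J.card < 8 * Fintype.card Y) (z : U)
    (hz : ¬ C.Bad J z)
    (hdef : 1 ≤ C.Fz (a ^ 19) z + (C.Jz J z : ℝ) / (4 * Fintype.card Y)) :
    1 ≤ ∑ u ∈ univ.filter (fun u : U × E × Option (Y × Y) => u.1 = z),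
      wA C (a ^ 19) Q1 J α β u := by
  rw [total]
  have hX0 : 0 ≤ ∑ l, (if C.Bad J z ∧ C.ok z l ∧ a ^ 19 ≤ C.tl l ∧ ¬ Us C (a ^ 19) Q1 l then
        ((od C Q1 l).card : ℝ) * (iw C l / ((od C Q1 l).card : ℝ)) else 0) := by
    refine Finset.sum_nonneg fun l _ => ?_
    rw [if_neg (fun h => hz h.1)]
  rw [Fz_split C (a ^ 19) Q1 z] at hdef
  -- numbers
  have hP : 3000 ≤ a ^ 19 := le_trans ha (Nat.le_self_pow (by norm_num) a)
  have e1 : a ^ 19 * a ^ 19 = a * a ^ 37 := by rw [← pow_add, ← pow_succ']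
  have e2 : a ^ 40 = a ^ 3 * a ^ 37 := by rw [← pow_add]
  have e3 : 100 * C.s ≤ Fintype.card Y := by
    have h1 : a ^ 40 = a ^ 6 * a ^ 34 := by rw [← pow_add]
    have h2 : a ≤ a ^ 6 := Nat.le_self_pow (by norm_num) a
    have h3 : 100 * a ^ 34 ≤ a ^ 6 * a ^ 34 := Nat.mul_le_mul_right _ (by omega)
    omega
  have e4 : J.card < 16 * a ^ 37 := by
    have h1 : a ^ 3 * J.card < a ^ 3 * (16 * a ^ 37) := by
      calc a ^ 3 * J.card < 8 * Fintype.card Y := hsmall
        _ ≤ 8 * (2 * a ^ 40) := Nat.mul_le_mul_left _ hN2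
        _ = a ^ 3 * (16 * a ^ 37) := by rw [e2]; ring
    exact Nat.lt_of_mul_lt_mul_left h1
  set p := a ^ 19 with hp
  set N := Fintype.card Y with hNdef
  have hNpos : 0 < N := by
    have : 0 < a ^ 40 := by positivity
    omega
  have hNr : (0 : ℝ) < N := by exact_mod_cast hNpos
  have hsr : 100 * (C.s : ℝ) ≤ N := by exact_mod_cast e3
  have hpr : (3000 : ℝ) ≤ p := by exact_mod_cast hP
  have har : (3000 : ℝ) ≤ a := by exact_mod_cast ha
  have hNs : (0 : ℝ) < (N : ℝ) - C.s := by linarith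
  -- broken lines
  set W := univ.filter (fun l => p ≤ C.tl l ∧
    2 * (univ.filter (fun y => C.on y l ∧ y ∉ Q1)).card < p) with hW
  have hWc := Pool.Agent.Helper43.RF.broken_card C (Q1 := Q1) (p := p) (by omega)
  rw [← hW] at hWc
  have hbz : bz C p Q1 z ≤ (W.card : ℝ) * (1 / ((N : ℝ) - C.s)) := by
    unfold bz
    have h1 : (univ.filter (fun l => C.ok z l ∧ p ≤ C.tl l ∧ ¬ Us C p Q1 l)) ⊆ W := by
      intro l hl
      rw [Finset.mem_filter] at hl
      rw [hW, Finset.mem_filter]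
      refine ⟨Finset.mem_univ _, hl.2.2.1, ?_⟩
      by_contra h'
      exact hl.2.2.2 ⟨hl.2.2.1, not_lt.1 h'⟩
    have hlt : C.s < Fintype.card Y := by omega
    refine (Finset.sum_le_sum_of_subset_of_nonneg h1
      (fun l _ _ => (iw_pos C hlt l).le)).trans ?_
    rw [← nsmul_eq_mul, ← Finset.sum_const]
    refine Finset.sum_le_sum fun l _ => ?_
    unfold iw
    apply one_div_le_one_div_of_le hNs
    have : (C.tl l : ℝ) ≤ C.s := by exact_mod_cast C.short l
    rw [← hNdef]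
    linarith
  have key : (W.card : ℝ) * (1 / ((N : ℝ) - C.s)) ≤ (C.Jz J z : ℝ) / (4 * N) := by
    rcases Nat.eq_zero_or_pos W.card with hW0 | hW0
    · rw [hW0, Nat.cast_zero, zero_mul]
      positivity
    have hQ2 : 4 * Q1.card * Q1.card ≤ 16 * (J.card * J.card) := by
      calc 4 * Q1.card * Q1.card ≤ 4 * (2 * J.card) * (2 * J.card) :=
            Nat.mul_le_mul (Nat.mul_le_mul_left _ hQ1) hQ1
        _ = 16 * (J.card * J.card) := by ring
    have hJ6 : 6 ≤ J.card := by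
      by_contra h
      have h1 : J.card * J.card ≤ 25 := by
        have : J.card ≤ 5 := by omega
        nlinarith
      have h2 : 2998 * 2998 ≤ p * (p - 2) := Nat.mul_le_mul (by omega) (by omega)
      have h3 : 1 * (p * (p - 2)) ≤ W.card * (p * (p - 2)) := Nat.mul_le_mul_right _ hW0
      omega
    have hJz : J.card ≤ 2 * C.Jz J z := by
      by_contra h
      exact hz ⟨hJ6, by omega⟩
    set j := J.card with hj
    have hjz : (j : ℝ) ≤ 2 * (C.Jz J z : ℝ) := by exact_mod_cast hJz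
    have hb : (W.card : ℝ) * ((p : ℝ) * ((p : ℝ) - 2)) ≤ 16 * ((j : ℝ) * j) := by
      have h1 : ((W.card * (p * (p - 2)) : ℕ) : ℝ) ≤ ((16 * (j * j) : ℕ) : ℝ) := by
        exact_mod_cast hWc.trans hQ2
      rw [Nat.cast_mul, Nat.cast_mul, Nat.cast_sub (by omega)] at h1
      push_cast at h1
      exact h1
    set B : ℝ := (a : ℝ) ^ 37 with hB
    have hB0 : 0 < B := by positivity
    have hpB : (p : ℝ) * p = a * B := by
      rw [hB]
      exact_mod_cast e1
    have hjB : (j : ℝ) ≤ 16 * B := by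
      rw [hB]
      exact_mod_cast e4.le
    have hpp : 99 / 100 * (a * B) ≤ (p : ℝ) * ((p : ℝ) - 2) := by
      rw [← hpB]
      nlinarith
    have hmain : 128 * (N : ℝ) * j ≤ ((N : ℝ) - C.s) * ((p : ℝ) * ((p : ℝ) - 2)) := by
      have h1 : 99 / 100 * (N : ℝ) ≤ (N : ℝ) - C.s := by linarith
      have h2 : 99 / 100 * (3000 * B) ≤ (p : ℝ) * ((p : ℝ) - 2) := by nlinarith
      calc 128 * (N : ℝ) * j ≤ 128 * (N : ℝ) * (16 * B) :=
            mul_le_mul_of_nonneg_left hjB (by positivity)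
        _ ≤ (99 / 100 * (N : ℝ)) * (99 / 100 * (3000 * B)) := by nlinarith [mul_pos hNr hB0]
        _ ≤ _ := mul_le_mul h1 h2 (by positivity) hNs.le
    have hj0 : (0 : ℝ) < j := by
      have : 0 < j := by omega
      exact_mod_cast this
    have hpp0 : (0 : ℝ) < (p : ℝ) * ((p : ℝ) - 2) := mul_pos (by linarith) (by linarith)
    have h8 : 8 * (N : ℝ) * (W.card : ℝ) ≤ j * ((N : ℝ) - C.s) := by
      have h9 : 8 * (N : ℝ) * (W.card : ℝ) * ((p : ℝ) * ((p : ℝ) - 2)) ≤
          j * ((N : ℝ) - C.s) * ((p : ℝ) * ((p : ℝ) - 2)) := by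
        calc 8 * (N : ℝ) * (W.card : ℝ) * ((p : ℝ) * ((p : ℝ) - 2))
            = 8 * (N : ℝ) * ((W.card : ℝ) * ((p : ℝ) * ((p : ℝ) - 2))) := by ring
          _ ≤ 8 * (N : ℝ) * (16 * ((j : ℝ) * j)) := mul_le_mul_of_nonneg_left hb (by positivity)
          _ = j * (128 * (N : ℝ) * j) := by ring
          _ ≤ j * (((N : ℝ) - C.s) * ((p : ℝ) * ((p : ℝ) - 2))) :=
              mul_le_mul_of_nonneg_left hmain hj0.le
          _ = _ := by ring
      exact le_of_mul_le_mul_right h9 hpp0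
    rw [mul_one_div, div_le_div_iff₀ hNs (by positivity)]
    nlinarith
  have h9 : (C.Jz J z : ℝ) / (4 * N) + (C.Jz J z : ℝ) / (4 * N) = (C.Jz J z : ℝ) / (2 * N) := by
    rw [← add_div, div_eq_div_iff (by positivity) (by positivity)]
    ring
  linarith

end Pool.Agent.Helper63.RF
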