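import Pool.Agent.Helper78.RF.Counts
import Pool.Agent.Helper86.SW.Bad
import Pool.Agent.Helper63.RF.Mixed

/-!
# MP_47cd0b, rank four, dense case (b): vertices, weights, sums over planes and over lines
-/

set_option autoImplicit false
set_option linter.unusedSectionVars false

namespace Pool.Agent.Helper63.RF

open Finset Classical H20SW

variable {Y U E G P R : Type} [Fintype Y] [Fintype U] [Fintype E]

/-- usable lines: fat and with at least half of `p` points off `Q1` -/
def Us (C : Cone Y U E G P R) (p : ℕ) (Q1 : Finset Y) (m : E) : Prop :=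
  p ≤ C.tl m ∧ p ≤ 2 * (univ.filter fun y => C.on y m ∧ y ∉ Q1).card

/-- ordered pairs of points of `Q1` on a line -/
noncomputable def od (C : Cone Y U E G P R) (Q1 : Finset Y) (l : E) : Finset (Y × Y) :=
  (Q1.filter fun x => C.on x l).offDiag

/-- the weight of a line -/
noncomputable def iw (C : Cone Y U E G P R) (l : E) : ℝ :=
  (1 : ℝ) / ((Fintype.card Y : ℝ) - C.tl l)

/-- the weights of the vertices over usable lines -/
noncomputable def wF (C : Cone Y U E G P R) (p : ℕ) (Q1 : Finset Y)
    (v : U × E × Option (Y × Y)) : ℝ :=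
  if v.2.2 = none ∧ C.ok v.1 v.2.1 ∧ Us C p Q1 v.2.1 then iw C v.2.1 else 0

/-- the weights of the vertices over lines of the family -/
noncomputable def wT (C : Cone Y U E G P R) (J : Finset E) (a b : E → Y)
    (v : U × E × Option (Y × Y)) : ℝ :=
  if v.2.2 = some (a v.2.1, b v.2.1) ∧ v.2.1 ∈ J ∧ C.ok v.1 v.2.1 then
    (1 : ℝ) / (2 * Fintype.card Y) else 0

/-- the weights of the vertices over broken lines -/
noncomputable def wX (C : Cone Y U E G P R) (p : ℕ) (Q1 : Finset Y) (J : Finset E)
    (v : U × E × Option (Y × Y)) : ℝ :=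
  if (∃ q ∈ od C Q1 v.2.1, v.2.2 = some q) ∧
    (C.Bad J v.1 ∧ C.ok v.1 v.2.1 ∧ p ≤ C.tl v.2.1 ∧ ¬ Us C p Q1 v.2.1) then
    iw C v.2.1 / ((od C Q1 v.2.1).card : ℝ) else 0

section basic

variable (C : Cone Y U E G P R) (p : ℕ) (Q1 : Finset Y) (J : Finset E) (a b : E → Y)

theorem iw_pos (hN : C.s < Fintype.card Y) (l : E) : 0 < iw C l := by
  have h : C.tl l < Fintype.card Y := lt_of_le_of_lt (C.short l) hN
  have h' : (C.tl l : ℝ) < Fintype.card Y := by exact_mod_cast h
  unfold iw
  apply one_div_pos.2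
  linarith

theorem wF_nonneg (hN : C.s < Fintype.card Y) (v : U × E × Option (Y × Y)) :
    0 ≤ wF C p Q1 v := by
  unfold wF
  split_ifs
  · exact (iw_pos C hN _).le
  · exact le_rfl

theorem wT_nonneg (v : U × E × Option (Y × Y)) : 0 ≤ wT C J a b v := by
  unfold wT
  split_ifs
  · positivity
  · exact le_rfl

theorem wX_nonneg (hN : C.s < Fintype.card Y) (v : U × E × Option (Y × Y)) :
    0 ≤ wX C p Q1 J v := by
  unfold wX
  split_ifs
  · exact div_nonneg (iw_pos C hN _).le (Nat.cast_nonneg _)
  · exact le_rfl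

theorem oF (z : U) (l : E) :
    ∑ o, wF C p Q1 (z, l, o) = if C.ok z l ∧ Us C p Q1 l then iw C l else 0 := by
  rw [Finset.sum_eq_single none]
  · simp [wF]
  · intro o _ ho
    simp [wF, ho]
  · intro h
    exact absurd (Finset.mem_univ _) h

theorem oT (z : U) (l : E) :
    ∑ o, wT C J a b (z, l, o) =
      if l ∈ J ∧ C.ok z l then (1 : ℝ) / (2 * Fintype.card Y) else 0 := by
  rw [Finset.sum_eq_single (some (a l, b l))]
  · simp [wT]
  · intro o _ ho
    simp [wT, ho]
  · intro h
    exact absurd (Finset.mem_univ _) h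

theorem oX (z : U) (l : E) :
    ∑ o, wX C p Q1 J (z, l, o) =
      if C.Bad J z ∧ C.ok z l ∧ p ≤ C.tl l ∧ ¬ Us C p Q1 l then
        ((od C Q1 l).card : ℝ) * (iw C l / ((od C Q1 l).card : ℝ)) else 0 := by
  rw [Fintype.sum_option]
  have h0 : wX C p Q1 J (z, l, none) = 0 := by simp [wX]
  rw [h0, zero_add]
  split_ifs with h
  · have h1 : ∀ q : Y × Y, wX C p Q1 J (z, l, some q) =
        if q ∈ od C Q1 l then iw C l / ((od C Q1 l).card : ℝ) else 0 := by
      intro q
      unfold wX
      by_cases hq : q ∈ od C Q1 l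
      · rw [if_pos ⟨⟨q, hq, rfl⟩, h⟩, if_pos hq]
      · rw [if_neg, if_neg hq]
        rintro ⟨⟨q', hq', e⟩, -⟩
        exact hq ((Option.some.inj e) ▸ hq')
    simp only [h1]
    rw [← Finset.sum_filter, Finset.filter_mem_eq_inter, Finset.univ_inter, Finset.sum_const,
      nsmul_eq_mul]
  · refine Finset.sum_eq_zero fun q _ => ?_
    unfold wX
    rw [if_neg]
    exact fun h' => h h'.2

/-- the sum over the vertices on a plane -/
theorem pl_sum (f : U × E × Option (Y × Y) → ℝ) (z : U) (l : E) :
    ∑ u ∈ univ.filter (fun u : U × E × Option (Y × Y) => C.pl u.1 u.2.1 = C.pl z l), f u =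
      ∑ w ∈ univ.filter (fun w => C.pl w l = C.pl z l), ∑ o, f (w, l, o) := by
  rw [Finset.sum_filter, Fintype.sum_prod_type, Finset.sum_filter]
  refine Finset.sum_congr rfl fun w _ => ?_
  rw [Fintype.sum_prod_type, Finset.sum_eq_single l]
  · by_cases h : C.pl w l = C.pl z l
    · simp [h]
    · simp [h]
  · intro m _ hm
    refine Finset.sum_eq_zero fun o _ => ?_
    rw [if_neg]
    intro h
    exact hm (C.pl_line _ _ _ _ h)
  · intro h
    exact absurd (Finset.mem_univ _) h

/-- the sum over the vertices of one user -/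
theorem col_sum (f : U × E × Option (Y × Y) → ℝ) (z : U) :
    ∑ u ∈ univ.filter (fun u : U × E × Option (Y × Y) => u.1 = z), f u =
      ∑ l, ∑ o, f (z, l, o) := by
  rw [Finset.sum_filter, Fintype.sum_prod_type, Finset.sum_eq_single z]
  · rw [Fintype.sum_prod_type]
    refine Finset.sum_congr rfl fun l _ => Finset.sum_congr rfl fun o _ => ?_
    simp
  · intro w _ hw
    refine Finset.sum_eq_zero fun o _ => ?_
    rw [if_neg hw]
  · intro h
    exact absurd (Finset.mem_univ _) h

/-- the first line of a vertex -/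
def g1 (u : U × E × Option (Y × Y)) : Option G := u.2.2.map fun q => C.ln u.1 q.1

/-- the second line of a vertex -/
def g2 (u : U × E × Option (Y × Y)) : Option G := u.2.2.map fun q => C.ln u.1 q.2

/-- the sum over the vertices on a line -/
theorem ln_sum (f : U × E × Option (Y × Y) → ℝ) (hf : ∀ u, 0 ≤ f u) (z : U) (x0 : Y) (K : ℝ)
    (hK0 : 0 ≤ K)
    (hK : ∀ w, ∑ l, ∑ q ∈ univ.filter (fun q : Y × Y => q.1 = x0 ∨ q.2 = x0),
      f (w, l, some q) ≤ K) :
    ∑ u ∈ univ.filter (fun u : U × E × Option (Y × Y) => u.2.2 ≠ none ∧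
      (g1 C u = some (C.ln z x0) ∨ g2 C u = some (C.ln z x0))), f u ≤ (C.s : ℝ) * K := by
  rw [Finset.sum_filter, Fintype.sum_prod_type]
  have h1 : ∀ w, ∑ m : E × Option (Y × Y), (if (w, m).2.2 ≠ none ∧
      (g1 C (w, m) = some (C.ln z x0) ∨ g2 C (w, m) = some (C.ln z x0)) then f (w, m) else 0) ≤
      if C.ln w x0 = C.ln z x0 then K else 0 := by
    intro w
    rw [Fintype.sum_prod_type]
    by_cases hw : C.ln w x0 = C.ln z x0
    · rw [if_pos hw]
      refine le_trans (Finset.sum_le_sum fun l _ => ?_) (hK w)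
      rw [Fintype.sum_option, Finset.sum_filter, if_neg (fun h => h.1 rfl), zero_add]
      refine Finset.sum_le_sum fun q _ => ?_
      by_cases hq : q.1 = x0 ∨ q.2 = x0
      · rw [if_pos hq]
        by_cases hc : ((w, l, some q) : U × E × Option (Y × Y)).2.2 ≠ none ∧
            (g1 C (w, l, some q) = some (C.ln z x0) ∨ g2 C (w, l, some q) = some (C.ln z x0))
        · rw [if_pos hc]
        · rw [if_neg hc]
          exact hf _
      · rw [if_neg hq, if_neg]
        rintro ⟨-, h | h⟩
        · exact hq (Or.inl (C.ln_pt _ _ _ _ (Option.some.inj h)))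
        · exact hq (Or.inr (C.ln_pt _ _ _ _ (Option.some.inj h)))
    · rw [if_neg hw]
      refine le_of_eq (Finset.sum_eq_zero fun l _ => Finset.sum_eq_zero fun o _ => ?_)
      rw [if_neg]
      rintro ⟨h0, h⟩
      cases o with
      | none => exact h0 rfl
      | some q =>
        rcases h with h | h
        · have h2 : C.ln w q.1 = C.ln z x0 := Option.some.inj h
          have h3 := C.ln_pt _ _ _ _ h2
          rw [h3] at h2
          exact hw h2
        · have h2 : C.ln w q.2 = C.ln z x0 := Option.some.inj h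
          have h3 := C.ln_pt _ _ _ _ h2
          rw [h3] at h2
          exact hw h2
  refine (Finset.sum_le_sum fun w _ => h1 w).trans ?_
  rw [← Finset.sum_filter, Finset.sum_const, nsmul_eq_mul]
  exact mul_le_mul_of_nonneg_right (by exact_mod_cast C.card_ln z x0) hK0

end basic

end Pool.Agent.Helper63.RF
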